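import Pool.Agent.H6.N4D.TC

/-!
# Row STR: the choice of the stretch
-/

set_option autoImplicit false

open Finset
open Pool.Agent.H6.N4D

namespace Pool.Agent.H10.N4D

theorem ev2 (K : ℝ) (hK : 1 ≤ K) :
    ∀ᶠ X : ℝ in Filter.atTop, K * LL X + 1 / 13 ≤ Real.log X / 390 := by
  have h1 : Filter.Tendsto (fun X : ℝ => Real.log X ^ (-(1 / 20) : ℝ)) Filter.atTop (nhds 0) :=
    (tendsto_rpow_neg_atTop (by norm_num)).comp Real.tendsto_log_atTop
  have h2 : ∀ᶠ X : ℝ in Filter.atTop, Real.log X ^ (-(1 / 20) : ℝ) < 1 / (780 * K) :=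
    h1.eventually_lt_const (by positivity)
  have h3 : ∀ᶠ X : ℝ in Filter.atTop, 60 ≤ Real.log X :=
    Real.tendsto_log_atTop.eventually_ge_atTop 60
  filter_upwards [h2, h3] with X h2 h3
  have h4 : LL X = Real.log X * Real.log X ^ (-(1 / 20) : ℝ) := by
    unfold LL
    rw [show (19 / 20 : ℝ) = 1 + (-(1 / 20)) by norm_num, Real.rpow_add (by linarith),
      Real.rpow_one]
  have h5 : K * LL X ≤ Real.log X / 780 := by
    rw [h4]
    have h6 : K * (Real.log X * Real.log X ^ (-(1 / 20) : ℝ)) ≤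
        K * (Real.log X * (1 / (780 * K))) := by
      apply mul_le_mul_of_nonneg_left _ (by linarith)
      exact mul_le_mul_of_nonneg_left h2.le (by linarith)
    refine h6.trans (le_of_eq ?_)
    field_simp
  linarith

theorem ev3 (K : ℝ) (hK : 1 ≤ K) :
    ∀ᶠ X : ℝ in Filter.atTop, 113 * K * LL X + Real.log 8 ≤ Real.log X ^ (24 / 25 : ℝ) := by
  have h1 : Filter.Tendsto (fun X : ℝ => Real.log X ^ (-(1 / 100) : ℝ)) Filter.atTop (nhds 0) :=
    (tendsto_rpow_neg_atTop (by norm_num)).comp Real.tendsto_log_atTop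
  have h2 : ∀ᶠ X : ℝ in Filter.atTop, Real.log X ^ (-(1 / 100) : ℝ) < 1 / (226 * K) :=
    h1.eventually_lt_const (by positivity)
  have h3 : ∀ᶠ X : ℝ in Filter.atTop, 1 ≤ Real.log X :=
    Real.tendsto_log_atTop.eventually_ge_atTop 1
  have h0 : Filter.Tendsto (fun X : ℝ => Real.log X ^ (24 / 25 : ℝ)) Filter.atTop Filter.atTop :=
    (tendsto_rpow_atTop (by norm_num)).comp Real.tendsto_log_atTop
  have h6 := h0.eventually_ge_atTop (2 * Real.log 8)
  filter_upwards [h2, h3, h6] with X h2 h3 h6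
  have h4 : LL X = Real.log X ^ (24 / 25 : ℝ) * Real.log X ^ (-(1 / 100) : ℝ) := by
    unfold LL
    rw [← Real.rpow_add (by linarith)]
    norm_num
  have hp : 0 ≤ Real.log X ^ (24 / 25 : ℝ) := Real.rpow_nonneg (by linarith) _
  have h5 : 113 * K * LL X ≤ Real.log X ^ (24 / 25 : ℝ) / 2 := by
    rw [h4]
    have h7 : 113 * K * (Real.log X ^ (24 / 25 : ℝ) * Real.log X ^ (-(1 / 100) : ℝ)) ≤
        113 * K * (Real.log X ^ (24 / 25 : ℝ) * (1 / (226 * K))) := by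
      apply mul_le_mul_of_nonneg_left _ (by linarith)
      exact mul_le_mul_of_nonneg_left h2.le hp
    refine h7.trans (le_of_eq ?_)
    field_simp
    ring
  linarith

/-- some set of a disjoint family has a small sum -/
theorem pig {m : ℕ} (hm : 0 < m) (s : ℕ → Finset ℕ) (T : Finset ℕ) (f : ℕ → ℝ)
    (hf : ∀ n, 0 ≤ f n) (hs : ∀ i < m, s i ⊆ T)
    (hd : ∀ i < m, ∀ j < m, i < j → Disjoint (s i) (s j)) (B : ℝ) (hB : ∑ n ∈ T, f n ≤ B) :
    ∃ i < m, ∑ n ∈ s i, f n ≤ B / m := by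
  by_contra hcon
  push Not at hcon
  have hm' : (0 : ℝ) < m := by exact_mod_cast hm
  have h1 : ∑ i ∈ range m, ∑ n ∈ s i, f n ≤ ∑ n ∈ T, f n := by
    rw [← Finset.sum_biUnion]
    · apply Finset.sum_le_sum_of_subset_of_nonneg
      · intro n hn
        rw [Finset.mem_biUnion] at hn
        obtain ⟨i, hi, hn⟩ := hn
        exact hs i (Finset.mem_range.1 hi) hn
      · intro n _ _
        exact hf n
    · intro i hi j hj hij
      have hi' := Finset.mem_range.1 (Finset.mem_coe.1 hi)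
      have hj' := Finset.mem_range.1 (Finset.mem_coe.1 hj)
      rcases lt_or_gt_of_ne hij with h | h
      · exact hd i hi' j hj' h
      · exact (hd j hj' i hi' h).symm
  have h2 : ∑ i ∈ range m, B / m < ∑ i ∈ range m, ∑ n ∈ s i, f n := by
    apply Finset.sum_lt_sum_of_nonempty
    · exact Finset.nonempty_range_iff.2 (by omega)
    · intro i hi
      exact hcon i (Finset.mem_range.1 hi)
  rw [Finset.sum_const, Finset.card_range, nsmul_eq_mul, mul_div_cancel₀ _ hm'.ne'] at h2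
  linarith

theorem pf_STR : T_STR := by
  classical
  intro K hK
  have hKr : (1 : ℝ) ≤ K := by exact_mod_cast hK
  have e1 : ∀ᶠ X : ℝ in Filter.atTop, 2 ≤ LL X := tendsto_LL.eventually_ge_atTop 2
  have hall := e1.and ((ev2 K hKr).and ((ev3 K hKr).and (Filter.eventually_ge_atTop (1 : ℝ))))
  rw [Filter.eventually_atTop] at hall
  obtain ⟨X₀, hX₀⟩ := hall
  refine ⟨X₀, ?_⟩
  intro X δ Y E hX hδ hY1 hY2 hsum
  obtain ⟨f1, f2, f3, f4⟩ := hX₀ X hX
  have hXp : 0 < X := by linarith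
  obtain ⟨ℓ, hℓ⟩ : ∃ ℓ, ℓ = Real.log X := ⟨_, rfl⟩
  obtain ⟨L, hL⟩ : ∃ L, L = LL X := ⟨_, rfl⟩
  rw [← hℓ] at f2 f3 hY1 hsum
  rw [← hL] at f1 f2 f3
  have hexpℓ : Real.exp ℓ = X := by rw [hℓ]; exact Real.exp_log hXp
  have hKL : 0 < K * L := by positivity
  have hKL2 : 2 ≤ K * L := by nlinarith
  have hℓ60 : 780 ≤ ℓ := by nlinarith
  -- the mesh
  obtain ⟨J, hJ⟩ := pow_unbounded_of_one_lt (X ^ 5) (one_lt_two (α := ℝ))
  have hlog2 : 0 < Real.log 2 := Real.log_pos one_lt_two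
  have hlog2' : Real.log 2 ≤ 1 := by
    have := Real.log_two_lt_d9
    linarith
  have h2J : (0 : ℝ) < 2 ^ J := by positivity
  obtain ⟨h, hh⟩ : ∃ h, h = Real.log 2 / 2 ^ J := ⟨_, rfl⟩
  have hh0 : 0 < h := by rw [hh]; positivity
  have hhJ : h * 2 ^ J = Real.log 2 := by rw [hh]; field_simp
  have hh5 : h * X ^ 5 ≤ 1 := by
    calc h * X ^ 5 ≤ h * 2 ^ J := mul_le_mul_of_nonneg_left hJ.le hh0.le
      _ = Real.log 2 := hhJ
      _ ≤ 1 := hlog2'
  have hh1 : h ≤ 1 := by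
    have h1 : 1 ≤ X ^ 5 := one_le_pow₀ f4
    nlinarith
  -- the number of the steps
  obtain ⟨N', hN'⟩ : ∃ N' : ℕ, N' = ⌈12.5 * (K * L) / h⌉₊ := ⟨_, rfl⟩
  have hN1 : 12.5 * (K * L) ≤ N' * h := by
    have h1 : 12.5 * (K * L) / h ≤ N' := by rw [hN']; exact Nat.le_ceil _
    rwa [div_le_iff₀ hh0] at h1
  have hN2 : N' * h ≤ 12.5 * (K * L) + h := by
    have h1 : (N' : ℝ) < 12.5 * (K * L) / h + 1 := by
      rw [hN']; exact Nat.ceil_lt_add_one (by positivity)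
    have h2 : (N' : ℝ) * h ≤ (12.5 * (K * L) / h + 1) * h :=
      mul_le_mul_of_nonneg_right h1.le hh0.le
    have h3 : (12.5 * (K * L) / h + 1) * h = 12.5 * (K * L) + h := by field_simp
    linarith
  obtain ⟨D, hD⟩ : ∃ D, D = (N' : ℝ) * h := ⟨_, rfl⟩
  rw [← hD] at hN1 hN2
  have hD1 : 12 * (K * L) ≤ D := by linarith
  have hD2 : D ≤ 13 * (K * L) := by linarith
  have hD0 : 0 < D := by linarith
  -- the first point
  obtain ⟨a₀, ha₀⟩ : ∃ a₀ : ℤ, a₀ = ⌈(ℓ / 2 + 1) / h⌉ := ⟨_, rfl⟩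
  have ha1 : ℓ / 2 + 1 ≤ h * a₀ := by
    have h1 : (ℓ / 2 + 1) / h ≤ a₀ := by rw [ha₀]; exact Int.le_ceil _
    rw [div_le_iff₀ hh0] at h1
    linarith
  have ha2 : h * a₀ ≤ ℓ / 2 + 1 + h := by
    have h1 : (a₀ : ℝ) < (ℓ / 2 + 1) / h + 1 := by rw [ha₀]; exact Int.ceil_lt_add_one _
    have h2 : (a₀ : ℝ) * h ≤ ((ℓ / 2 + 1) / h + 1) * h := mul_le_mul_of_nonneg_right h1.le hh0.le
    have h3 : ((ℓ / 2 + 1) / h + 1) * h = ℓ / 2 + 1 + h := by field_simp
    linarith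
  -- the number of the stretches
  obtain ⟨m, hm⟩ : ∃ m : ℕ, m = ⌊(ℓ / 2 - 2) / (2 * D)⌋₊ := ⟨_, rfl⟩
  have hm1 : (m : ℝ) * (2 * D) ≤ ℓ / 2 - 2 := by
    have h1 : (m : ℝ) ≤ (ℓ / 2 - 2) / (2 * D) := by
      rw [hm]; exact Nat.floor_le (by apply div_nonneg <;> linarith)
    rwa [le_div_iff₀ (by linarith)] at h1
  have hm2 : ℓ ≤ m * (60 * (K * L)) := by
    have h1 : (ℓ / 2 - 2) / (2 * D) < m + 1 := by rw [hm]; exact Nat.lt_floor_add_one _
    rw [div_lt_iff₀ (by linarith)] at h1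
    have h2 : ((m : ℝ) + 1) * (2 * D) ≤ (m + 1) * (26 * (K * L)) :=
      mul_le_mul_of_nonneg_left (by linarith) (by positivity)
    nlinarith
  have hm0 : 0 < m := by
    rcases Nat.eq_zero_or_pos m with h0 | h0
    · rw [h0] at hm2
      simp only [Nat.cast_zero, zero_mul] at hm2
      linarith
    · exact h0
  have hmr : (0 : ℝ) < m := by exact_mod_cast hm0
  -- the stretches
  obtain ⟨A, hA⟩ : ∃ A : ℕ → ℤ, A = fun i : ℕ => a₀ + 2 * (i : ℤ) * (N' : ℤ) := ⟨_, rfl⟩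
  have hAr : ∀ i, h * (A i : ℝ) = h * a₀ + i * (2 * D) := by
    intro i
    rw [hA, hD]
    push_cast
    ring
  obtain ⟨xa, hxa⟩ : ∃ xa : ℕ → ℝ, xa = fun i => Real.exp (h * (A i : ℝ)) := ⟨_, rfl⟩
  obtain ⟨xb, hxb⟩ : ∃ xb : ℕ → ℝ, xb = fun i => Real.exp (h * ((A i + N' : ℤ) : ℝ)) := ⟨_, rfl⟩
  have hxab : ∀ i, xb i = xa i * Real.exp D := by
    intro i
    rw [hxa, hxb]
    dsimp only
    rw [← Real.exp_add, hD]
    congr 1
    push_cast
    ring
  have hexp1 : (2 : ℝ) ≤ Real.exp 1 := by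
    have := Real.exp_one_gt_d9
    linarith
  have hX12 : X ^ (1 / 2 : ℝ) = Real.exp (ℓ / 2) := by
    rw [Real.rpow_def_of_pos hXp, ← hℓ]
    congr 1
    ring
  have hX14 : X ^ (1 / 4 : ℝ) = Real.exp (ℓ / 4) := by
    rw [Real.rpow_def_of_pos hXp, ← hℓ]
    congr 1
    ring
  have hxa1 : ∀ i, 2 * Real.exp (ℓ / 2) ≤ xa i := by
    intro i
    have h1 : Real.exp (ℓ / 2 + 1) ≤ xa i := by
      rw [hxa]
      dsimp only
      apply Real.exp_le_exp.2
      rw [hAr]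
      have : 0 ≤ (i : ℝ) * (2 * D) := by positivity
      linarith
    rw [Real.exp_add] at h1
    have h2 := Real.exp_pos (ℓ / 2)
    nlinarith
  have hexp1' : 1 ≤ Real.exp (ℓ / 2) := Real.one_le_exp (by linarith)
  have hxb1 : ∀ i < m, xb i ≤ X := by
    intro i hi
    rw [← hexpℓ, hxb]
    dsimp only
    apply Real.exp_le_exp.2
    have h1 : h * ((A i + N' : ℤ) : ℝ) = h * (A i : ℝ) + D := by
      rw [hD]
      push_cast
      ring
    rw [h1, hAr]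
    have h2 : (i : ℝ) + 1 ≤ m := by exact_mod_cast hi
    have h3 : ((i : ℝ) + 1) * (2 * D) ≤ m * (2 * D) :=
      mul_le_mul_of_nonneg_right h2 (by linarith)
    linarith
  have hxapos : ∀ i, 0 < xa i := fun i => by rw [hxa]; exact Real.exp_pos _
  have hxbpos : ∀ i, 0 < xb i := fun i => by rw [hxb]; exact Real.exp_pos _
  have hDe : 4 ≤ Real.exp D := by
    have h1 : D + 1 ≤ Real.exp D := Real.add_one_le_exp D
    linarith
  have hxa_le_xb : ∀ i, xa i ≤ xb i := by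
    intro i
    rw [hxab]
    have := hxapos i
    nlinarith
  -- the choice
  obtain ⟨i, hi, hsi⟩ := pig hm0 (fun i => (Icc ⌊xa i / 2⌋₊ ⌊xb i⌋₊).filter E)
    ((Icc 1 ⌊X⌋₊).filter E) (fun n => 1 / (n : ℝ)) (fun n => by positivity) (by
      intro i hi n hn
      rw [mem_filter, mem_Icc] at hn ⊢
      refine ⟨⟨?_, hn.1.2.trans (Nat.floor_le_floor (hxb1 i hi))⟩, hn.2⟩
      refine le_trans ?_ hn.1.1
      rw [Nat.one_le_floor_iff]
      linarith [hxa1 i]) (by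
      intro i hi j hj hij
      rw [Finset.disjoint_left]
      intro n hn hn'
      rw [mem_filter, mem_Icc] at hn hn'
      have h1 : ⌊xa j / 2⌋₊ ≤ ⌊xb i⌋₊ := hn'.1.1.trans hn.1.2
      have h2 : xb i * Real.exp D ≤ xa j := by
        rw [hxab, hxa]
        dsimp only
        rw [← Real.exp_add, ← Real.exp_add]
        apply Real.exp_le_exp.2
        rw [hAr, hAr]
        have h3 : (i : ℝ) + 1 ≤ j := by exact_mod_cast hij
        have h4 : ((i : ℝ) + 1) * (2 * D) ≤ j * (2 * D) :=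
          mul_le_mul_of_nonneg_right h3 (by linarith)
        linarith
      have h5 : xb i * 4 ≤ xb i * Real.exp D := mul_le_mul_of_nonneg_left hDe (hxbpos i).le
      have h6 : 1 ≤ xb i := by linarith [hxa1 i, hxa_le_xb i]
      have h7 : xb i + 1 ≤ xa j / 2 := by linarith
      have h8 : ⌊xb i⌋₊ + 1 ≤ ⌊xa j / 2⌋₊ := by
        rw [← Nat.floor_add_one (hxbpos i).le]
        exact Nat.floor_le_floor h7
      omega) (δ * ℓ) hsum
  have hrho0 : 0 < (Y : ℝ) / (8 * xb i) := by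
    have h1 : 0 < (Y : ℝ) := lt_of_lt_of_le (Real.exp_pos _) hY1
    have h2 := hxbpos i
    positivity
  have hNh : (((A i + N' : ℤ) : ℝ) - (A i : ℝ)) * h = D := by
    rw [hD]
    push_cast
    ring
  have hxa' : xa i = Real.exp (h * ((A i : ℤ) : ℝ)) := by rw [hxa]
  have hxb' : xb i = Real.exp (h * ((A i + N' : ℤ) : ℝ)) := by rw [hxb]
  refine ⟨⟨X, h, Y / (8 * xb i), J, K, A i, A i + N'⟩, ⟨f4, hK, hh0, hhJ, hh5, ?_, ?_, hrho0, ?_,
    ?_, ?_⟩, rfl, rfl, ?_, ?_, ?_⟩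
  · show 12 * (K : ℝ) * LL X ≤ (((A i + N' : ℤ) : ℝ) - (A i : ℝ)) * h
    rw [hNh, ← hL]
    linarith
  · show (((A i + N' : ℤ) : ℝ) - (A i : ℝ)) * h ≤ 13 * (K : ℝ) * LL X
    rw [hNh, ← hL]
    linarith
  · show (Y : ℝ) / (8 * xb i) * X ^ (1 / 4 : ℝ) ≤ 1
    have h1 := hxbpos i
    rw [div_mul_eq_mul_div, div_le_one (by positivity)]
    have h2 : (Y : ℝ) * X ^ (1 / 4 : ℝ) ≤ X ^ (1 / 4 : ℝ) * X ^ (1 / 4 : ℝ) :=
      mul_le_mul_of_nonneg_right hY2 (Real.rpow_nonneg hXp.le _)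
    have h3 : X ^ (1 / 4 : ℝ) * X ^ (1 / 4 : ℝ) = Real.exp (ℓ / 2) := by
      rw [hX14, ← Real.exp_add]
      congr 1
      ring
    linarith [hxa1 i, hxa_le_xb i]
  · show PP X ^ (100 * K) ≤ (Y : ℝ) / (8 * xb i) * Real.exp (h * ((A i : ℤ) : ℝ))
    rw [← hxa', PP_pow, ← hL]
    have h1 := hxapos i
    have h2 : (Y : ℝ) / (8 * xb i) * xa i = Y / (8 * Real.exp D) := by
      rw [hxab]
      have h3 := Real.exp_pos D
      field_simp
    rw [h2, le_div_iff₀ (by positivity)]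
    have h4 : Real.exp (((100 * K : ℕ) : ℝ) * L) * (8 * Real.exp D) =
        Real.exp (((100 * K : ℕ) : ℝ) * L + (Real.log 8 + D)) := by
      rw [Real.exp_add, Real.exp_add, Real.exp_log (by norm_num)]
    rw [h4]
    refine le_trans (Real.exp_le_exp.2 ?_) hY1
    push_cast
    linarith
  · show Real.exp (h * ((A i + N' : ℤ) : ℝ)) ≤ X
    rw [← hxb']
    exact hxb1 i hi
  · show (Y : ℝ) / (8 * xb i) = Y / (8 * Real.exp (h * ((A i + N' : ℤ) : ℝ)))
    rw [← hxb']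
  · show X ^ (1 / 2 : ℝ) ≤ Real.exp (h * ((A i : ℤ) : ℝ))
    rw [← hxa', hX12]
    linarith [hxa1 i]
  · show ∑ n ∈ (Icc ⌊Real.exp (h * ((A i : ℤ) : ℝ)) / 2⌋₊
        ⌊Real.exp (h * ((A i + N' : ℤ) : ℝ))⌋₊).filter E, 1 / (n : ℝ) ≤
      100 * δ * ((((A i + N' : ℤ) : ℝ) - (A i : ℝ)) * h)
    rw [← hxa', ← hxb', hNh]
    refine hsi.trans ?_
    rw [div_le_iff₀ hmr]
    have h1 : δ * ℓ ≤ δ * (m * (60 * (K * L))) := mul_le_mul_of_nonneg_left hm2 hδ
    have h2 : δ * (m * (60 * (K * L))) ≤ δ * (m * (100 * D)) := by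
      apply mul_le_mul_of_nonneg_left _ hδ
      apply mul_le_mul_of_nonneg_left _ hmr.le
      linarith
    linarith

end Pool.Agent.H10.N4D
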